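import Pool.Agent.W91.BH.Stm

/-! Part BH-FB: the Lizorkin-Triebel cost is at most the Besov cost. -/

set_option autoImplicit false

open MeasureTheory
open scoped ENNReal

namespace W166.BH.FB

open Pool.Agent.W91.BH

theorem sum_rpow_le {ι : Type*} (s : Finset ι) (f : ι → ℝ≥0∞) {r : ℝ} (h0 : 0 < r) (h1 : r ≤ 1) :
    (∑ i ∈ s, f i) ^ r ≤ ∑ i ∈ s, f i ^ r := by
  classical
  induction s using Finset.induction_on with
  | empty => simp [ENNReal.zero_rpow_of_pos h0]
  | insert a s ha ih =>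
    rw [Finset.sum_insert ha, Finset.sum_insert ha]
    exact (ENNReal.rpow_add_le_add_rpow _ _ h0.le h1).trans (add_le_add le_rfl ih)

theorem tsum_rpow_le {ι : Type*} (f : ι → ℝ≥0∞) {r : ℝ} (h0 : 0 < r) (h1 : r ≤ 1) :
    (∑' i, f i) ^ r ≤ ∑' i, f i ^ r := by
  have h2 : (∑' i, f i) ^ r = ⨆ s : Finset ι, (∑ i ∈ s, f i) ^ r := by
    rw [ENNReal.tsum_eq_iSup_sum]
    exact (ENNReal.orderIsoRpow r h0).map_iSup _
  rw [h2]
  refine iSup_le fun s => ?_
  exact (sum_rpow_le s f h0 h1).trans (ENNReal.sum_le_tsum s)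

theorem meas_cube (n : ℕ) (Q : Idx n) : MeasurableSet (cube n Q) := by
  have h : cube n Q = ⋂ i : Fin n, {x : E n | ⌊(2 : ℝ) ^ Q.1 * x i⌋ = Q.2 i} := by
    ext x
    simp [cube]
  rw [h]
  refine MeasurableSet.iInter fun i => ?_
  have h1 : Measurable (fun x : E n => ⌊(2 : ℝ) ^ Q.1 * x i⌋) := by
    refine Int.measurable_floor.comp (Measurable.const_mul ?_ _)
    exact (EuclideanSpace.proj (𝕜 := ℝ) i).continuous.measurable
  exact h1 (measurableSet_singleton (Q.2 i))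

theorem vol_cube (n : ℕ) (Q : Idx n) :
    volume (cube n Q) = ENNReal.ofReal ((2 : ℝ) ^ (-((Q.1 : ℝ) * n))) := by
  have hk : (0 : ℝ) < (2 : ℝ) ^ Q.1 := by positivity
  have h : cube n Q = (WithLp.ofLp : E n → (Fin n → ℝ)) ⁻¹'
      (Set.pi Set.univ (fun i => Set.Ico ((Q.2 i : ℝ) / 2 ^ Q.1) (((Q.2 i : ℝ) + 1) / 2 ^ Q.1))) := by
    ext x
    simp only [cube, Set.mem_ofPred_eq, Set.mem_preimage, Set.mem_pi, Set.mem_univ, true_imp_iff,
      Set.mem_Ico]
    refine forall_congr' fun i => ?_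
    rw [Int.floor_eq_iff, div_le_iff₀ hk, lt_div_iff₀ hk]
    rw [mul_comm (x.ofLp i)]
  rw [h, (PiLp.volume_preserving_ofLp (Fin n)).measure_preimage
    (MeasurableSet.univ_pi fun i => measurableSet_Ico).nullMeasurableSet, Real.volume_pi_Ico]
  have h3 : ∀ i : Fin n, ((Q.2 i : ℝ) + 1) / 2 ^ Q.1 - (Q.2 i : ℝ) / 2 ^ Q.1 = ((2 : ℝ) ^ Q.1)⁻¹ := by
    intro i
    field_simp
    ring
  simp_rw [h3]
  rw [Finset.prod_const, Finset.card_univ, Fintype.card_fin, ← ENNReal.ofReal_pow (by positivity)]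
  congr 1
  rw [Real.rpow_neg (by norm_num), Real.rpow_mul (by norm_num), Real.rpow_natCast,
    Real.rpow_natCast, inv_pow]

theorem fb : S_FB := by
  intro n α p s hp hp2
  have hr0 : 0 < p / 2 := by linarith
  have hr1 : p / 2 ≤ 1 := by linarith
  unfold fCost bCost
  calc ∫⁻ x : E n, (∑' Q : Idx n, (cube n Q).indicator
        (fun _ => ENNReal.ofReal (((2 : ℝ) ^ ((Q.1 : ℝ) * α) * |s Q|) ^ (2 : ℝ))) x) ^ (p / 2)
      ≤ ∫⁻ x : E n, ∑' Q : Idx n, (cube n Q).indicator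
        (fun _ => ENNReal.ofReal (((2 : ℝ) ^ ((Q.1 : ℝ) * α) * |s Q|) ^ p)) x := by
        refine lintegral_mono fun x => ?_
        refine (tsum_rpow_le _ hr0 hr1).trans (le_of_eq ?_)
        refine tsum_congr fun Q => ?_
        by_cases hx : x ∈ cube n Q
        · rw [Set.indicator_of_mem hx, Set.indicator_of_mem hx]
          have h0 : 0 ≤ (2 : ℝ) ^ ((Q.1 : ℝ) * α) * |s Q| := by positivity
          rw [ENNReal.ofReal_rpow_of_nonneg (by positivity) hr0.le, ← Real.rpow_mul h0]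
          congr 2
          ring
        · rw [Set.indicator_of_notMem hx, Set.indicator_of_notMem hx, ENNReal.zero_rpow_of_pos hr0]
    _ = ∑' Q : Idx n, ∫⁻ x : E n, (cube n Q).indicator
        (fun _ => ENNReal.ofReal (((2 : ℝ) ^ ((Q.1 : ℝ) * α) * |s Q|) ^ p)) x := by
        refine lintegral_tsum fun Q => ?_
        exact (measurable_const.indicator (meas_cube n Q)).aemeasurable
    _ = _ := by
        refine tsum_congr fun Q => ?_
        rw [lintegral_indicator_const (meas_cube n Q), vol_cube]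

end W166.BH.FB
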